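import Pool.Agent.Helper41.FX.StK2

/-!
# Project FX, chapter K: module ST6 (stage 6)
-/

set_option autoImplicit false

namespace Pool.Agent.Helper68.FX

open Polynomial Pool.Agent.Helper72.FX Pool.Agent.Helper72.KRF Pool.Agent.Helper41.FX

noncomputable section

/-- the zero additive function -/
def zAF (A : Type) [CommRing A] (P : MC A) (Λ : Type) [AddCommGroup Λ] : AF A P Λ where
  f _ _ _ := 0
  exact' _ _ _ _ _ _ _ _ _ _ _ _ _ _ _ _ := by simp

/-- `χ (N / F) = χ (N[F])` for all finite `R`-modules -/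
theorem st6_cond (hSNK : StSNK) (hDQ : StDQ) (hCKQ : StCKQ) {R : Type} [CommRing R]
    [IsNoetherianRing R] [IsDomain R] {F : R} {Λ : Type} [AddCommGroup Λ]
    (χ : AF R (kil (Ideal.span {F})) Λ) (h0 : χ.f (R ⧸ Ideal.span {F}) = 0) (hZ : ZZ R ⊥ 1)
    (hF : F ≠ 0) (N : Type) [AddCommGroup N] [Module R N] (hN : Module.Finite R N) :
    χ.f (Ck F N) = χ.f (Kn F N) := by
  obtain ⟨ψ, hψ⟩ := hDQ hSNK R ⊥ F Λ
    (χ.mono (fun M _ _ h => kil_mono (le_sup_right : _ ≤ (⊥ : Ideal R) ⊔ Ideal.span {F}) h))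
  have hψ' : ∀ (M : Type) [AddCommGroup M] [Module R M], ψ.f M = χ.f (Ck F M) - χ.f (Kn F M) :=
    fun M _ _ => hψ M
  have h1 : ψ.f N = 0 := by
    refine hZ Λ ψ ?_ ?_ N hN ?_
    · intro M _ _ _ _ h
      have : Subsingleton M := ⟨fun a b => by
        have ha := h a
        have hb := h b
        rw [one_smul] at ha hb
        rw [ha, hb]⟩
      exact ψ.of_subsingleton (gd_kil _) M
    · rw [hψ']
      obtain ⟨⟨e⟩, hs⟩ := hCKQ R ⊥ F
      have : Subsingleton (Kn F (R ⧸ (⊥ : Ideal R))) := hs (fun r hr => by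
        rw [Ideal.mem_bot] at hr ⊢
        exact (mul_eq_zero.1 hr).resolve_left hF)
      rw [χ.of_subsingleton (gd_kil _) (Kn F (R ⧸ (⊥ : Ideal R))), sub_zero]
      have e2 : (R ⧸ ((⊥ : Ideal R) ⊔ Ideal.span {F})) ≃ₗ[R] (R ⧸ Ideal.span {F}) :=
        Submodule.quotEquivOfEq _ _ (bot_sup_eq _)
      rw [χ.equiv (gd_kil _) (e.trans e2) inferInstance (kil_quot _)]
      exact h0
    · intro x hx y
      rw [Ideal.mem_bot] at hx
      rw [hx, zero_smul]
  rw [hψ'] at h1
  exact sub_eq_zero.1 h1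

/-- `R[X] / (J, X) = R / J` over `R` -/
theorem st6_quot {R : Type} [CommRing R] (J : Ideal R) :
    Nonempty ((R[X] ⧸ (J.map (C : R →+* R[X]) ⊔ Ideal.span {X})) ≃ₗ[R] (R ⧸ J)) := by
  let K : Ideal R[X] := J.map (C : R →+* R[X]) ⊔ Ideal.span {X}
  let g : R →ₗ[R] (R[X] ⧸ K) := Algebra.linearMap R (R[X] ⧸ K)
  have hg : ∀ a, g a = Ideal.Quotient.mk K (C a) := fun a => rfl
  have hsurj : Function.Surjective g := by
    intro y
    obtain ⟨p, rfl⟩ := Ideal.Quotient.mk_surjective y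
    refine ⟨p.coeff 0, ?_⟩
    rw [hg]
    refine (Ideal.Quotient.eq.2 ?_)
    refine Ideal.mem_sup_right ?_
    rw [Ideal.mem_span_singleton]
    rw [X_dvd_iff]
    simp
  have hker : LinearMap.ker g = J := by
    ext a
    rw [LinearMap.mem_ker, hg, Ideal.Quotient.eq_zero_iff_mem]
    constructor
    · intro h
      have hle : K ≤ J.comap (constantCoeff : R[X] →+* R) := by
        refine sup_le ?_ ?_
        · rw [Ideal.map_le_iff_le_comap]
          intro b hb
          simp only [Ideal.mem_comap, constantCoeff_apply, coeff_C_zero]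
          exact hb
        · rw [Ideal.span_singleton_le_iff_mem, Ideal.mem_comap]
          simp
      have := hle h
      rw [Ideal.mem_comap] at this
      simpa using this
    · intro h
      exact Ideal.mem_sup_left (Ideal.mem_map_of_mem _ h)
  exact ⟨((Submodule.quotEquivOfEq _ _ hker.symm).trans
    (LinearMap.quotKerEquivOfSurjective g hsurj)).symm⟩

/-- the cokernel and the kernel of `C F` on an `R[X]`-module, over `R` -/
theorem st6_ckkn {R : Type} [CommRing R] (F : R) (N : Type) [AddCommGroup N] [Module R[X] N]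
    [Module R N] [IsScalarTower R R[X] N] :
    Nonempty (Ck (C F : R[X]) N ≃ₗ[R] Ck F N) ∧ Nonempty (Kn (C F : R[X]) N ≃ₗ[R] Kn F N) := by
  have hC : ∀ y : N, (C F : R[X]) • y = F • y := fun y => algebraMap_smul R[X] F y
  constructor
  · have e1 : (N ⧸ (LinearMap.range (LinearMap.lsmul R[X] N (C F))).restrictScalars R) ≃ₗ[R]
        (N ⧸ LinearMap.range (LinearMap.lsmul R[X] N (C F))) :=
      Submodule.Quotient.restrictScalarsEquiv R _
    have e2 : (N ⧸ (LinearMap.range (LinearMap.lsmul R[X] N (C F))).restrictScalars R) ≃ₗ[R]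
        (N ⧸ LinearMap.range (LinearMap.lsmul R N F)) := by
      refine Submodule.quotEquivOfEq _ _ ?_
      ext y
      simp only [Submodule.restrictScalars_mem, LinearMap.mem_range, LinearMap.lsmul_apply, hC]
    exact ⟨e1.symm.trans e2⟩
  · refine ⟨{ toFun := fun x => ⟨x.1, ?_⟩, invFun := fun x => ⟨x.1, ?_⟩, map_add' := ?_,
              map_smul' := ?_, left_inv := ?_, right_inv := ?_ }⟩
    · have := x.2
      rw [LinearMap.mem_ker, LinearMap.lsmul_apply] at this ⊢
      rw [← hC]; exact this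
    · intro x y; rfl
    · intro a x; rfl
    · have := x.2
      rw [LinearMap.mem_ker, LinearMap.lsmul_apply] at this ⊢
      rw [hC]; exact this
    · intro x; rfl
    · intro x; rfl

/-- a module killed by `X` -/
theorem st6_fin {R : Type} [CommRing R] (N : Type) [AddCommGroup N] [Module R[X] N]
    [Module R N] [IsScalarTower R R[X] N] (hN : Module.Finite R[X] N)
    (hX : ∀ y : N, (X : R[X]) • y = 0) : Module.Finite R N := by
  obtain ⟨s, hs⟩ := hN.fg_top
  refine ⟨⟨s, ?_⟩⟩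
  rw [eq_top_iff]
  intro y _
  have hy : y ∈ Submodule.span R[X] (s : Set N) := by rw [hs]; trivial
  induction hy using Submodule.span_induction with
  | mem x hx => exact Submodule.subset_span hx
  | zero => exact zero_mem _
  | add x y _ _ hx hy => exact add_mem (hx trivial) (hy trivial)
  | smul p x _ hx =>
    have h1 : p • x = (p.coeff 0) • x := by
      obtain ⟨q, hq⟩ : X ∣ p - C (p.coeff 0) := by
        rw [X_dvd_iff]
        simp
      have h2 : p = C (p.coeff 0) + q * X := by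
        rw [mul_comm q X, ← hq]
        ring
      calc p • x = (C (p.coeff 0) + q * X) • x := by rw [← h2]
        _ = (C (p.coeff 0) : R[X]) • x := by rw [add_smul, mul_smul, hX, smul_zero, add_zero]
        _ = (p.coeff 0) • x := algebraMap_smul R[X] _ x
    rw [h1]
    exact Submodule.smul_mem _ _ (hx trivial)

theorem st6_pair {A : Type} [CommRing A] {x y : A} {M : Type} [AddCommGroup M] [Module A M]
    (hx : ∀ m : M, x • m = 0) (hy : ∀ m : M, y • m = 0) : kil (Ideal.span {x, y}) M := by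
  rw [Ideal.span_insert]
  exact kil_sup (kil_span hx) (kil_span hy)

theorem st6_pmf (hPMX : StPMX) {A : Type} [CommRing A] {M : Type} [AddCommGroup M] [Module A M]
    (h : Module.Finite A M) : Module.Finite A[X] (PolynomialModule A M) :=
  (hPMX A M M M LinearMap.id LinearMap.id).2.2.2.1 h

theorem st6_pmk (hPMX : StPMX) {A : Type} [CommRing A] {I : Ideal A} {M : Type} [AddCommGroup M]
    [Module A M] (h : kil I M) : kil (I.map C) (PolynomialModule A M) :=
  (hPMX A M M M LinearMap.id LinearMap.id).2.2.2.2.1 I h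

/-- **ST6** -/
theorem hST6 (hPENC : StPENC) (hSNK : StSNK) (hDQ : StDQ) (hRES : StRES) (hEXT : StEXT)
    (hCKP : StCKP) (hCKQ : StCKQ) (hPMX : StPMX) (hPMQ : StPMQ) (hPMP : StPMP) : StST6 := by
  intro R _ _ _ F Λ _ χ h0 hZ hF
  -- restriction to `R[X]`
  have hle1 : (Ideal.span {F}).map (C : R →+* R[X]) ≤ Ideal.span {C F, X} := by
    rw [Ideal.map_span, Set.image_singleton]
    exact Ideal.span_mono (by simp)
  have hsur1 : ∀ a : R[X], ∃ a' : R, a - C a' ∈ Ideal.span {C F, (X : R[X])} := by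
    intro a
    refine ⟨a.coeff 0, ?_⟩
    have h1 : a - C (a.coeff 0) ∈ Ideal.span {(X : R[X])} := by
      rw [Ideal.mem_span_singleton, X_dvd_iff]
      simp
    exact Ideal.span_mono (by simp) h1
  obtain ⟨χ', hχ'⟩ := hRES R[X] R (C : R →+* R[X]) (Ideal.span {C F, X}) (Ideal.span {F})
    hle1 hsur1 Λ χ
  obtain ⟨χ0, hχ0⟩ := hEXT hDQ hSNK hRES R[X] (Ideal.span {C F, X}) Λ χ'
  have hleX : (⊥ : Ideal R[X]).map (C : R[X] →+* R[X][X]) ⊔
      Ideal.span {C (X : R[X]), C (C F : R[X])} = (Ideal.span {C F, (X : R[X])}).map C := by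
    rw [Ideal.map_bot, bot_sup_eq, Ideal.map_span, Set.image_pair, Set.pair_comm]
  let χ0m : AF R[X][X] (kil ((⊥ : Ideal R[X]).map (C : R[X] →+* R[X][X]) ⊔
      Ideal.span {C (X : R[X]), C (C F : R[X])})) Λ :=
    χ0.mono (fun M _ _ h => kil_mono hleX.ge h)
  have hcond : ∀ (N : Type) [AddCommGroup N] [Module R[X] N], Module.Finite R[X] N →
      kil (⊥ : Ideal R[X]) N → (∀ y : N, (X : R[X]) • y = 0) →
      (zAF R[X] (kil (⊥ : Ideal R[X])) Λ).f N =
        χ0m.f (Ck (C (C F : R[X]) : R[X][X]) (PolynomialModule R[X] N)) -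
        χ0m.f (Kn (C (C F : R[X]) : R[X][X]) (PolynomialModule R[X] N)) := by
    intro N _ _ hN _ hX
    change (0 : Λ) = χ0.f _ - χ0.f _
    obtain ⟨⟨e1⟩, ⟨e2⟩⟩ := hCKP R[X] (C F) N
    letI : Module R N := Module.compHom N (C : R →+* R[X])
    haveI : IsScalarTower R R[X] N := ⟨fun a p y => by
      change (a • p) • y = (C a : R[X]) • p • y
      rw [smul_smul, smul_eq_C_mul]⟩
    have hNR : Module.Finite R N := st6_fin N hN hX
    obtain ⟨⟨c1⟩, ⟨c2⟩⟩ := st6_ckkn F N
    have hk1 : kil (Ideal.span {C F, (X : R[X])}) (Ck (C F : R[X]) N) := by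
      refine st6_pair (fun y => ?_) (fun y => ?_)
      · obtain ⟨n, rfl⟩ := Submodule.Quotient.mk_surjective _ y
        rw [← Submodule.Quotient.mk_smul, Submodule.Quotient.mk_eq_zero]
        exact ⟨n, rfl⟩
      · obtain ⟨n, rfl⟩ := Submodule.Quotient.mk_surjective _ y
        rw [← Submodule.Quotient.mk_smul, hX, Submodule.Quotient.mk_zero]
    have hk2 : kil (Ideal.span {C F, (X : R[X])}) (Kn (C F : R[X]) N) := by
      refine st6_pair (fun y => ?_) (fun y => ?_)
      · exact Subtype.ext y.2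
      · exact Subtype.ext (hX y.1)
    have hf1 : Module.Finite R[X] (Ck (C F : R[X]) N) := inferInstance
    have hf2 : Module.Finite R[X] (Kn (C F : R[X]) N) := inferInstance
    rw [χ0.equiv (gd_kil _) e1 (st6_pmf hPMX hf1) (st6_pmk hPMX hk1),
      χ0.equiv (gd_kil _) e2 (st6_pmf hPMX hf2) (st6_pmk hPMX hk2),
      hχ0 _ hf1 hk1, hχ0 _ hf2 hk2,
      hχ' (Ck (C F : R[X]) N) (fun a m => algebraMap_smul R[X] a m),
      hχ' (Kn (C F : R[X]) N) (fun a m => algebraMap_smul R[X] a m)]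
    have g1 : χ.f (Ck (C F : R[X]) N) = χ.f (Ck F N) :=
      χ.equiv (gd_kil _) c1 inferInstance (kil_span fun y => by
        obtain ⟨n, rfl⟩ := Submodule.Quotient.mk_surjective _ y
        rw [← Submodule.Quotient.mk_smul, Submodule.Quotient.mk_eq_zero]
        exact ⟨n, rfl⟩)
    have g2 : χ.f (Kn (C F : R[X]) N) = χ.f (Kn F N) :=
      χ.equiv (gd_kil _) c2 inferInstance (kil_span fun y => Subtype.ext y.2)
    rw [g1, g2, st6_cond hSNK hDQ hCKQ χ h0 hZ hF N hNR, sub_self]
  obtain ⟨χ6, hi, hii⟩ := hPENC R[X] ⊥ X (C F) Λ (zAF R[X] (kil (⊥ : Ideal R[X])) Λ) χ0m hcond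
  refine ⟨χ6, ?_, ?_⟩
  · have h1 := hii (R[X] ⧸ (⊥ : Ideal R[X])) inferInstance (kil_quot _)
    change _ = (0 : Λ) at h1
    obtain ⟨⟨e⟩, hs⟩ := hPMP R[X] ⊥ (pel X (C F))
    have hp : pel (X : R[X]) (C F) ≠ 0 := by
      intro h
      have h2 : (pel (X : R[X]) (C F)).coeff 1 = X := by
        rw [pel, coeff_sub, coeff_C_mul, coeff_X_one, mul_one, coeff_C_of_ne_zero one_ne_zero, sub_zero]
      rw [h, coeff_zero] at h2
      exact X_ne_zero h2.symm
    haveI : Subsingleton (Kn (pel X (C F)) (PolynomialModule R[X] (R[X] ⧸ (⊥ : Ideal R[X])))) :=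
      hs (fun r hr => by
        rw [Ideal.map_bot, Ideal.mem_bot] at hr ⊢
        exact (mul_eq_zero.1 hr).resolve_left hp)
    rw [χ6.of_subsingleton (gd_kil _)
      (Kn (pel X (C F)) (PolynomialModule R[X] (R[X] ⧸ (⊥ : Ideal R[X])))), sub_zero] at h1
    rw [← h1]
    exact (χ6.equiv (gd_kil _) e inferInstance (kil_quot _)).symm
  · intro J hJ
    obtain ⟨e⟩ := hPMQ R[X] (J.map (C : R →+* R[X]) ⊔ Ideal.span {X})
    obtain ⟨e2⟩ := st6_quot J
    have hX : (X : R[X]) ∈ J.map (C : R →+* R[X]) ⊔ Ideal.span {X} :=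
      Ideal.mem_sup_right (Ideal.mem_span_singleton_self _)
    have hCF : (C F : R[X]) ∈ J.map (C : R →+* R[X]) ⊔ Ideal.span {X} :=
      Ideal.mem_sup_left (Ideal.mem_map_of_mem _ hJ)
    have hpl : pid ⊥ (X : R[X]) (C F) ≤ (J.map (C : R →+* R[X]) ⊔ Ideal.span {X}).map
        (C : R[X] →+* R[X][X]) := by
      refine sup_le (by rw [Ideal.map_bot]; exact bot_le) ?_
      rw [Ideal.span_singleton_le_iff_mem, pel]
      exact sub_mem (Ideal.mul_mem_right _ _ (Ideal.mem_map_of_mem _ hX))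
        (Ideal.mem_map_of_mem _ hCF)
    have hkX : ∀ y : R[X][X] ⧸ (J.map (C : R →+* R[X]) ⊔ Ideal.span {X}).map
        (C : R[X] →+* R[X][X]), (C (X : R[X]) : R[X][X]) • y = 0 := fun y =>
      kil_quot _ _ (Ideal.mem_map_of_mem _ hX) y
    have hkN : kil (Ideal.span {C F, (X : R[X])})
        (R[X] ⧸ (J.map (C : R →+* R[X]) ⊔ Ideal.span {X})) :=
      st6_pair (fun y => kil_quot _ _ hCF y) (fun y => kil_quot _ _ hX y)
    rw [hi _ inferInstance (kil_mono hpl (kil_quot _)) hkX]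
    change χ0.f _ = _
    rw [χ0.equiv (gd_kil _) e.symm (st6_pmf hPMX inferInstance) (st6_pmk hPMX hkN),
      hχ0 _ inferInstance hkN,
      hχ' (R[X] ⧸ (J.map (C : R →+* R[X]) ⊔ Ideal.span {X}))
        (fun a m => algebraMap_smul R[X] a m)]
    exact χ.equiv (gd_kil _) e2 inferInstance
      (kil_mono ((Ideal.span_singleton_le_iff_mem _).2 hJ) (kil_quot J))

end

end Pool.Agent.Helper68.FX
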